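import Pool.Agent.Lib.MP_707299_gt.Y
import Pool.Agent.Lib.MP_707299_gt.JL
import Pool.Agent.Lib.MP_707299_gt.J5

/-!
The robustness of the class `{n}` and of the regular `n`-gon are equal up to a constant factor and of
order `n ^ (-3)`. The definitions of convex body, centre of gravity, piecewise `C^r` boundary, equilibrium,
nondegenerate, stable and of the class `{n}` are in `Pool.Agent.Lib.MP_707299_gt.Defs`.
-/

set_option autoImplicit false

open MeasureTheory Set

namespace Pool.Agent.Results.MP_707299_gt.OrderOfMagnitude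

open Pool.Agent.Lib.MP_707299_gt

/-- The family `F_<(K)` for `K` in the class `{n}`: the bodies `K' ⊆ K` with fewer than `n` stable points
with respect to their own centre of gravity. -/
def Fless (r : ℕ∞) (n : ℕ) (K : Set ℂ) : Set (Set ℂ) :=
  {K' | K' ⊆ K ∧ ∃ m < n, InClass r m K'}

/-- The downward robustness `ρ(K)` of a body `K` in the class `{n}`. -/
noncomputable def rho (r : ℕ∞) (n : ℕ) (K : Set ℂ) : ENNReal :=
  ⨅ K' ∈ Fless r n K, volume (K \ K') / volume K

/-- The robustness `ρ_n` of the class `{n}`. -/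
noncomputable def rhoClass (r : ℕ∞) (n : ℕ) : ENNReal :=
  ⨆ (K : Set ℂ) (_ : InClass r n K), rho r n K

/-- For every `n ≥ 10000`: `2.4 / n ^ 3 ≤ ρ(P) ≤ ρ_n ≤ 255 / n ^ 3` for the regular `n`-gon `P`, and
`ρ_n ≤ 107 ρ(P)`. -/
theorem result (r : ℕ∞) (hr : 2 ≤ r) (n : ℕ) (hn : 10000 ≤ n) :
    ENNReal.ofReal (2.4 / (n : ℝ) ^ 3) ≤ rho r n (regularPolygon n) ∧
    rho r n (regularPolygon n) ≤ rhoClass r n ∧
    rhoClass r n ≤ ENNReal.ofReal (255 / (n : ℝ) ^ 3) ∧
    rhoClass r n ≤ 107 * rho r n (regularPolygon n) := by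
  have hP : InClass r n (regularPolygon n) := poly_class r (by omega)
  have hlow : ENNReal.ofReal (2.4 / (n : ℝ) ^ 3) ≤ rho r n (regularPolygon n) := by
    unfold rho
    refine le_iInf₂ fun K' hK' => ?_
    obtain ⟨hsub, m, hm, hc⟩ := hK'
    rw [ENNReal.le_div_iff_mul_le (Or.inl hP.body.volume_pos.ne')
      (Or.inl hP.body.volume_lt_top.ne)]
    exact lower hr hn hsub hm hc
  have hup : rhoClass r n ≤ ENNReal.ofReal (255 / (n : ℝ) ^ 3) := by
    unfold rhoClass
    refine iSup₂_le fun K hK => ?_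
    obtain ⟨K', hsub, hm, hvol⟩ := upper hr hn hK
    unfold rho
    refine (iInf₂_le K' ⟨hsub, hm⟩).trans ?_
    exact ENNReal.div_le_of_le_mul hvol
  refine ⟨hlow, ?_, hup, ?_⟩
  · unfold rhoClass
    exact le_iSup₂ (f := fun (K : Set ℂ) (_ : InClass r n K) => rho r n K) (regularPolygon n) hP
  · have hn0 : (10000 : ℝ) ≤ n := by exact_mod_cast hn
    have hn3 : (0 : ℝ) < (n : ℝ) ^ 3 := by positivity
    calc rhoClass r n ≤ ENNReal.ofReal (255 / (n : ℝ) ^ 3) := hup
      _ ≤ ENNReal.ofReal (107 * (2.4 / (n : ℝ) ^ 3)) := by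
          apply ENNReal.ofReal_le_ofReal
          rw [← mul_div_assoc]
          apply div_le_div_of_nonneg_right _ hn3.le
          norm_num
      _ = 107 * ENNReal.ofReal (2.4 / (n : ℝ) ^ 3) := by
          rw [ENNReal.ofReal_mul (by norm_num)]
          norm_num
      _ ≤ 107 * rho r n (regularPolygon n) := by gcongr

end Pool.Agent.Results.MP_707299_gt.OrderOfMagnitude
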